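import Pool.Agent.N343.AM.Stm

/-!
# The shadowing estimate (PROJECT AM, leaf ASM)
-/

set_option autoImplicit false

open Filter Topology Finset

namespace Pool.Agent.N937.AM.ASM

open Pool.Agent.N343.AM

/-- the numerical part -/
theorem num (ε J pk C L A B δ n q S1 S2 h b : ℝ) (hε : 0 < ε) (hJ : 1 ≤ J) (hpk : 0 < pk)
    (hC : 0 ≤ C) (hL : 1 ≤ L) (hA : 0 ≤ A) (hB : 0 ≤ B) (hδ : 0 < δ) (hn : 1 ≤ n)
    (hn1 : J + L ≤ n) (hn2 : 20 * (J * C) ≤ n * ε) (hq : q ≤ ε / 20) (h1 : J / pk ≤ ε / 20)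
    (h2 : J * C / L ≤ ε / 20) (h3 : J * L * A * L * δ ≤ ε / 20) (h4 : B * J * J * δ ≤ ε / 20)
    (hS1 : S1 ≤ δ * (n + J)) (hS2 : S2 ≤ δ * (n + J + L)) (hb : b ≤ A * L * S2)
    (hh : h ≤ (n + J) / pk + ((n + J) / L + 1) * C + L * b) (T : ℝ)
    (hT : T ≤ n * q + J * h + B * J * J * S1) : T / n ≤ ε / 2 := by
  have hn0 : 0 < n := by linarith
  have hL0 : 0 < L := by linarith
  have hJ0 : 0 < J := by linarith
  rw [div_le_iff₀ hn0]
  have e1 : n * q ≤ n * (ε / 20) := mul_le_mul_of_nonneg_left hq hn0.le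
  have e2 : J * h ≤ J * ((n + J) / pk + ((n + J) / L + 1) * C + L * b) :=
    mul_le_mul_of_nonneg_left hh hJ0.le
  have e3 : J * ((n + J) / pk + ((n + J) / L + 1) * C + L * b) =
      (J / pk) * (n + J) + (J * C / L) * (n + J) + J * C + J * L * b := by
    field_simp
    ring
  have e4 : (J / pk) * (n + J) ≤ (ε / 20) * (2 * n) :=
    mul_le_mul h1 (by linarith) (by linarith) (by linarith)
  have e5 : (J * C / L) * (n + J) ≤ (ε / 20) * (2 * n) :=
    mul_le_mul h2 (by linarith) (by linarith) (by linarith)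
  have e6 : J * L * b ≤ J * L * (A * L * S2) :=
    mul_le_mul_of_nonneg_left hb (by positivity)
  have e7 : J * L * (A * L * S2) ≤ J * L * (A * L * (δ * (n + J + L))) := by
    apply mul_le_mul_of_nonneg_left _ (by positivity)
    exact mul_le_mul_of_nonneg_left hS2 (by positivity)
  have e8 : J * L * (A * L * (δ * (n + J + L))) = (J * L * A * L * δ) * (n + J + L) := by ring
  have e9 : (J * L * A * L * δ) * (n + J + L) ≤ (ε / 20) * (2 * n) :=
    mul_le_mul h3 (by linarith) (by linarith) (by linarith)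
  have e10 : B * J * J * S1 ≤ B * J * J * (δ * (n + J)) :=
    mul_le_mul_of_nonneg_left hS1 (by positivity)
  have e11 : B * J * J * (δ * (n + J)) = (B * J * J * δ) * (n + J) := by ring
  have e12 : (B * J * J * δ) * (n + J) ≤ (ε / 20) * (2 * n) :=
    mul_le_mul h4 (by linarith) (by linarith) (by linarith)
  rw [e3] at e2
  rw [e8] at e7
  rw [e11] at e10
  have e13 : J * C ≤ n * ε / 20 := by linarith
  nlinarith

theorem main (hS : S_SHA) (hP : S_PSO) (hB : S_BAK) (_hD : S_DIS) : S_ASM := by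
  intro W P m hsys ε hε
  obtain ⟨J0, hJ0⟩ := exists_pow_lt_of_lt_one (show (0 : ℝ) < ε / 20 by linarith)
    (show (1 / 2 : ℝ) < 1 by norm_num)
  set J : ℕ := J0 + 1 with hJdef
  have hJ : (1 / 2 : ℝ) ^ J ≤ ε / 20 := by
    refine le_trans ?_ hJ0.le
    rw [hJdef, pow_succ]
    have : (0 : ℝ) ≤ (1 / 2) ^ J0 := by positivity
    linarith
  have hJ1 : (1 : ℝ) ≤ (J : ℝ) := by
    rw [hJdef]
    push_cast
    have : (0 : ℝ) ≤ (J0 : ℝ) := Nat.cast_nonneg _
    linarith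
  -- k
  obtain ⟨k, hk⟩ := exists_pow_lt_of_lt_one (show (0 : ℝ) < ε / 20 / J by positivity)
    (show (1 / 2 : ℝ) < 1 by norm_num)
  have hk' : (J : ℝ) / 2 ^ k ≤ ε / 20 := by
    have h1 : (1 / 2 : ℝ) ^ k = 1 / 2 ^ k := by rw [one_div_pow]
    rw [h1] at hk
    have h2 : (J : ℝ) * (1 / 2 ^ k) ≤ J * (ε / 20 / J) :=
      mul_le_mul_of_nonneg_left hk.le (by linarith)
    have h3 : (J : ℝ) * (ε / 20 / J) = ε / 20 := by
      have : (J : ℝ) ≠ 0 := by linarith
      field_simp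
    rw [h3] at h2
    calc (J : ℝ) / 2 ^ k = J * (1 / 2 ^ k) := by ring
      _ ≤ ε / 20 := h2
  -- C and L
  set C : ℕ := 4 * ((m k) ^ 2 + m k + 1) with hC
  obtain ⟨L0, hL0⟩ := exists_nat_ge ((J : ℝ) * C / (ε / 20))
  set L : ℕ := L0 + C + 1 with hLdef
  have hLC : C ≤ L := by omega
  have hL1 : (1 : ℝ) ≤ (L : ℝ) := by
    have : 1 ≤ L := by omega
    exact_mod_cast this
  have hL2 : (J : ℝ) * C / L ≤ ε / 20 := by
    have h1 : (L0 : ℝ) ≤ L := by
      have : L0 ≤ L := by omega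
      exact_mod_cast this
    have h2 : (J : ℝ) * C / (ε / 20) ≤ L := hL0.trans h1
    rw [div_le_iff₀ (by linarith)] at h2 ⊢
    linarith
  -- δ
  set δ : ℝ := (ε / 20) / (J * L * 2 ^ L * L + 2 ^ J * J * J + 1) with hδdef
  have hden : (0 : ℝ) < J * L * 2 ^ L * L + 2 ^ J * J * J + 1 := by positivity
  have hδ : 0 < δ := by positivity
  have hδe : δ * (J * L * 2 ^ L * L + 2 ^ J * J * J + 1) = ε / 20 := by
    rw [hδdef]; field_simp
  have hp1 : (0 : ℝ) ≤ J * L * 2 ^ L * L := by positivity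
  have hp2 : (0 : ℝ) ≤ 2 ^ J * J * J := by positivity
  have h3 : (J : ℝ) * L * 2 ^ L * L * δ ≤ ε / 20 := by
    have : 0 ≤ δ * (2 ^ J * J * J + 1) := by positivity
    nlinarith
  have h4 : (2 : ℝ) ^ J * J * J * δ ≤ ε / 20 := by
    have : 0 ≤ δ * (J * L * 2 ^ L * L + 1) := by positivity
    nlinarith
  refine ⟨δ, hδ, fun x hx hav => ?_⟩
  obtain ⟨N, hN⟩ := hav
  obtain ⟨y, hy, hsh⟩ := hS W P m hsys k L hLC (fun i => x i 0)
  refine ⟨y, hy, ?_⟩
  obtain ⟨N1, hN1⟩ := exists_nat_ge (20 * ((J : ℝ) * C) / ε)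
  refine ⟨N + J + L + N1 + 1, fun n hn => ?_⟩
  have hSle : ∀ n' : ℕ, N ≤ n' → 1 ≤ n' →
      ∑ i ∈ range n', dd (sg (x i)) (x (i + 1)) ≤ δ * n' := by
    intro n' h1 h2
    have h5 := (hN n' h1).le
    have h6 : (0 : ℝ) < (n' : ℝ) := by exact_mod_cast h2
    rw [div_le_iff₀ h6] at h5
    exact h5
  have hbad := hP L (Fac (W k)) x (fun i => hx i L k) (n + J)
  have hback := hB J x y n
  have hshn := hsh (n + J)
  have hS1 := hSle (n + J) (by omega) (by omega)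
  have hS2 := hSle (n + J + L) (by omega) (by omega)
  have hn0 : (1 : ℝ) ≤ (n : ℝ) := by
    have : 1 ≤ n := by omega
    exact_mod_cast this
  have hnJL : (J : ℝ) + L ≤ n := by
    have : J + L ≤ n := by omega
    exact_mod_cast this
  have hnC : 20 * ((J : ℝ) * C) ≤ n * ε := by
    have h5 : (N1 : ℝ) ≤ n := by
      have : N1 ≤ n := by omega
      exact_mod_cast this
    have h6 := hN1.trans h5
    rw [div_le_iff₀ hε] at h6
    exact h6
  have hCr : ((C : ℕ) : ℝ) = 4 * ((m k : ℝ) ^ 2 + m k + 1) := by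
    rw [hC]; push_cast; ring
  rw [← hCr] at hshn
  push_cast at hshn hS1 hS2
  exact num ε J (2 ^ k) C L (2 ^ L) (2 ^ J) δ n ((1 / 2) ^ J) _ _ _ _ hε hJ1 (by positivity)
    (Nat.cast_nonneg _) hL1 (by positivity) (by positivity) hδ hn0 hnJL hnC hJ hk' hL2 h3 h4
    hS1 hS2 hbad hshn _ hback

end Pool.Agent.N937.AM.ASM
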